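import Mathlib
import Pool.Agent.SXF.Stmts

set_option autoImplicit false

/-! HIT. -/

namespace Pool.Agent.SXF.H96

open MvPolynomial Pool.Agent.Helper78_ACIT Pool.Agent.WBX Pool.Agent.SXF

theorem exists_eval_ne {σ E : Type} [Field E] [Infinite E] (F : MvPolynomial σ E) (hF : F ≠ 0) :
    ∃ e : σ → E, eval e F ≠ 0 := by
  by_contra hcon
  push Not at hcon
  exact hF (MvPolynomial.funext fun x => by rw [hcon x, map_zero])

theorem hit (hBLK : BlkStmt) (hGRE : GreStmt) (hCUT : CutStmt) : HitStmt := by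
  intro E _ _ τ n s m K T hτ hT hT1 hK F hF hF0
  obtain ⟨hvars, w, hw, hw1, hB⟩ := hF
  obtain ⟨k, hkm, hk, hkr⟩ := hGRE n s m w hw
  have hkK : ∀ i, k i ≤ K := fun i => (hk i).trans hK
  obtain ⟨c, hc, hcb⟩ := hCUT n K k hkm hkK
  have hinf : Infinite E := inferInstance
  have hall : ∀ r, ∃ y z e : ℕ → E, aeval (mixed (T := T) k r y z e) F ≠ 0 := by
    intro r
    induction r with
    | zero =>
      obtain ⟨e, he⟩ := exists_eval_ne F hF0
      refine ⟨fun _ => 0, fun _ => 0, e, ?_⟩
      have h1 : aeval (mixed (T := T) k 0 (fun _ => (0 : E)) (fun _ => 0) e) F =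
          C (eval e F) := by
        have h2 : (aeval (mixed (T := T) k 0 (fun _ => (0 : E)) (fun _ => 0) e)).toRingHom =
            (C : E →+* MvPolynomial (Fin T) E).comp (eval e) := by
          apply MvPolynomial.ringHom_ext
          · intro a
            simp
          · intro i
            simp [mixed]
        exact RingHom.congr_fun h2 F
      rw [h1]
      intro h
      exact he (C_eq_zero.1 h)
    | succ r ih =>
      obtain ⟨y, z, e, h⟩ := ih
      exact hBLK E τ n m T F w k r hτ hT hT1 hvars hw1 hB (hkr r) y z e h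
  obtain ⟨y, z, e, h⟩ := hall (K + 1)
  obtain ⟨ξ, hξ⟩ := exists_eval_ne _ h
  refine ⟨fun r => ⟨c r, Nat.lt_succ_of_le (hc r)⟩, ξ, fun B => y B, fun B => z B, ?_⟩
  have h1 : eval ξ (aeval (mixed (T := T) k (K + 1) y z e) F) =
      eval (fun i => z (k i) + ∑ j : Fin T, ξ j * (((i : E) + 1) * y (k i)) ^ (j : ℕ)) F := by
    have h2 : (eval ξ).comp (aeval (mixed (T := T) k (K + 1) y z e)).toRingHom =
        eval (fun i => z (k i) + ∑ j : Fin T, ξ j * (((i : E) + 1) * y (k i)) ^ (j : ℕ)) := by
      apply MvPolynomial.ringHom_ext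
      · intro a
        simp
      · intro i
        have h3 : k i < K + 1 := Nat.lt_succ_of_le (hkK i)
        simp only [AlgHom.toRingHom_eq_coe, RingHom.coe_comp, RingHom.coe_coe, Function.comp_apply,
          aeval_X, eval_X, mixed, h3, if_true, map_add, eval_C, map_sum, map_mul, map_pow]
    exact RingHom.congr_fun h2 F
  rw [h1] at hξ
  have h4 : eval (point n (fun r => ((⟨c r, Nat.lt_succ_of_le (hc r)⟩ : Fin (n + 1)) : ℕ)) ξ
      (fun B : Fin (K + 1) => y B) (fun B : Fin (K + 1) => z B)) F =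
      eval (fun i => z (k i) + ∑ j : Fin T, ξ j * (((i : E) + 1) * y (k i)) ^ (j : ℕ)) F := by
    refine eval₂Hom_congr' rfl ?_ rfl
    intro i hi _
    have hin : i < n := Finset.mem_range.1 (hvars hi)
    unfold point
    rw [if_pos hin]
    simp only [hcb i hin]
  rw [h4]
  exact hξ

end Pool.Agent.SXF.H96
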