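import Mathlib
import Pool.Agent.SXF.Stmts

set_option autoImplicit false

/-! SIZ. -/

namespace Pool.Agent.SXF.H96

open MvPolynomial Pool.Agent.Helper78_ACIT Pool.Agent.WBX Pool.Agent.SXF

theorem siz : SizStmt := by
  intro n D K T c ξ y z hξ hy hz i
  unfold point
  split_ifs with hi
  · obtain ⟨a, ha⟩ : ∃ a, a = n * D * T + T + 2 := ⟨_, rfl⟩
    have hDT : D * T ≤ n * D * T := by
      rw [mul_assoc]
      exact Nat.le_mul_of_pos_left _ (by omega)
    have h1 : (z (block c i) : ℤ) + ∑ j : Fin T, (ξ j : ℤ) *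
        (((i : ℤ) + 1) * (y (block c i) : ℤ)) ^ (j : ℕ) =
        ((z (block c i) + ∑ j : Fin T, ξ j * ((i + 1) * y (block c i)) ^ (j : ℕ) : ℕ) : ℤ) := by
      push_cast
      rfl
    rw [h1, Int.natAbs_natCast]
    have h2 : ∀ j : Fin T, ξ j * ((i + 1) * y (block c i)) ^ (j : ℕ) ≤ a ^ (T + 1) := by
      intro j
      have h3 : (i + 1) * y (block c i) ≤ a := by
        calc (i + 1) * y (block c i) ≤ n * (D * T) := Nat.mul_le_mul (by omega) (hy _)
          _ = n * D * T := by ring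
          _ ≤ a := by omega
      calc ξ j * ((i + 1) * y (block c i)) ^ (j : ℕ) ≤ a * a ^ (j : ℕ) :=
            Nat.mul_le_mul ((hξ j).trans (by omega)) (Nat.pow_le_pow_left h3 _)
        _ = a ^ ((j : ℕ) + 1) := by ring
        _ ≤ a ^ (T + 1) := Nat.pow_le_pow_right (by omega) (by omega)
    have h4 : ∑ j : Fin T, ξ j * ((i + 1) * y (block c i)) ^ (j : ℕ) ≤ T * a ^ (T + 1) := by
      refine (Finset.sum_le_sum fun j _ => h2 j).trans ?_
      simp
    have h5 : a ≤ a ^ (T + 1) := Nat.le_self_pow (by omega) a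
    have h6 : z (block c i) ≤ a := (hz _).trans (by omega)
    calc z (block c i) + ∑ j : Fin T, ξ j * ((i + 1) * y (block c i)) ^ (j : ℕ)
        ≤ a ^ (T + 1) + T * a ^ (T + 1) := Nat.add_le_add (h6.trans h5) h4
      _ = (T + 1) * a ^ (T + 1) := by ring
      _ ≤ a * a ^ (T + 1) := Nat.mul_le_mul_right _ (by omega)
      _ = a ^ (T + 2) := by ring
      _ ≤ (2 ^ a) ^ (T + 2) := Nat.pow_le_pow_left Nat.lt_two_pow_self.le _
      _ = 2 ^ ((T + 2) * (n * D * T + T + 2)) := by rw [← pow_mul, ha, mul_comm]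
  · simp

end Pool.Agent.SXF.H96
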