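import Mathlib
import Pool.Agent.SXF.Stmts
import Pool.Agent.Helper78_ACIT.Prime

set_option autoImplicit false

/-! TST. -/

namespace Pool.Agent.SXF.H96

open MvPolynomial Pool.Agent.Helper78_ACIT Pool.Agent.WBX Pool.Agent.SXF

theorem point_map {R S : Type} [CommRing R] [CommRing S] (φ : R →+* S) {K T : ℕ} (n : ℕ)
    (c : Fin K → ℕ) (ξ : Fin T → R) (y z : Fin (K + 1) → R) (i : ℕ) :
    φ (point n c ξ y z i) =
      point n c (fun j => φ (ξ j)) (fun B => φ (y B)) (fun B => φ (z B)) i := by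
  unfold point
  split_ifs
  · simp only [map_add, map_sum, map_mul, map_pow, map_natCast, map_one]
  · exact map_zero φ

theorem testValue_eq (n p N K T : ℕ) (c : Fin K → Fin (n + 1)) (ξ : Fin T → Fin N)
    (y z : Fin (K + 1) → Fin N) (G : List Gate) :
    testValue n p N K T c ξ y z G =
      ((eval (point n (fun r => (c r : ℕ)) (fun j => ((ξ j : ℕ) : ℤ)) (fun B => ((y B : ℕ) : ℤ))
        (fun B => ((z B : ℕ) : ℤ))) (poly G) : ℤ) : ZMod p) := by
  unfold testValue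
  have h1 := out_map (Int.castRingHom (ZMod p))
    (point n (fun r => (c r : ℕ)) (fun j => ((ξ j : ℕ) : ℤ)) (fun B => ((y B : ℕ) : ℤ))
        (fun B => ((z B : ℕ) : ℤ))) G
  have h2 : (fun i => Int.castRingHom (ZMod p)
      (point n (fun r => (c r : ℕ)) (fun j => ((ξ j : ℕ) : ℤ)) (fun B => ((y B : ℕ) : ℤ))
        (fun B => ((z B : ℕ) : ℤ)) i)) =
      point n (fun r => (c r : ℕ)) (fun j => ((ξ j : ℕ) : ZMod p))
        (fun B => ((y B : ℕ) : ZMod p)) (fun B => ((z B : ℕ) : ZMod p)) := by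
    funext i
    rw [point_map]
    simp
  rw [h2] at h1
  rw [← h1, out_eq_eval]
  rfl

theorem tst (hIHT : IhtStmt) (hSIZ : SizStmt) : TstStmt := by
  intro E _ _ n K T hT1 P hP D b G hG hpoly
  constructor
  · rintro ⟨-, h0⟩ p _ _ c ξ y z
    rw [testValue_eq, h0, map_zero, Int.cast_zero]
  · intro htest
    refine ⟨hG, ?_⟩
    rcases hpoly with h0 | ⟨hD, hb, F, hF, hF0, hdvd⟩
    · exact h0
    exfalso
    obtain ⟨c, hc⟩ := hP F hF hF0
    obtain ⟨ξ, y, z, hξ, hy, hz, hne⟩ := hIHT E n D K T (poly G) hD hT1 F (fun r => (c r : ℕ)) hc hdvd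
    obtain ⟨V, hV⟩ : ∃ V, V = eval (point n (fun r => (c r : ℕ)) (fun j => (ξ j : ℤ))
      (fun B => (y B : ℤ)) (fun B => (z B : ℤ))) (poly G) := ⟨_, rfl⟩
    rw [← hV] at hne
    have hVle : V.natAbs ≤ 2 ^ (b + D * ((T + 2) * (n * D * T + T + 2))) := by
      rw [hV]
      refine (UO.natAbs_eval_le (poly G) _ (2 ^ ((T + 2) * (n * D * T + T + 2))) D
        (Nat.one_le_pow _ _ (by norm_num)) (hSIZ n D K T _ ξ y z hξ hy hz) hD).trans ?_
      rw [← pow_mul, pow_add, mul_comm ((T + 2) * (n * D * T + T + 2)) D]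
      exact Nat.mul_le_mul_right _ hb
    obtain ⟨p, hp, hple, hpnd⟩ := exists_prime_not_dvd V.natAbs _ (Int.natAbs_ne_zero.mpr hne)
      hVle
    apply hpnd
    have h1 := htest p hp hple c (fun j => ⟨ξ j, Nat.lt_succ_of_le (hξ j)⟩)
      (fun B => ⟨y B, Nat.lt_succ_of_le (hy B)⟩) (fun B => ⟨z B, Nat.lt_succ_of_le (hz B)⟩)
    rw [testValue_eq] at h1
    have h2 : ((V : ℤ) : ZMod p) = 0 := by
      rw [hV]
      exact h1
    rw [ZMod.intCast_zmod_eq_zero_iff_dvd, Int.natCast_dvd] at h2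
    exact h2

end Pool.Agent.SXF.H96
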