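import Pool.Agent.Helper96_SXF.FIN
import Pool.Agent.Helper96_SXF.HIT
import Pool.Agent.Helper96_SXF.TST
import Pool.Agent.Helper96_SXF.SIZ
import Pool.Agent.Helper66_SXF.VDM
import Pool.Agent.Helper66_SXF.CIR
import Pool.Agent.Helper34_SXF.INJ
import Pool.Agent.Helper34_SXF.CUT
import Pool.Agent.Helper34_SXF.IHT
import Pool.Agent.Helper23_FSX.KVE
import Pool.Agent.Helper28_SXF.STP
import Pool.Agent.Helper82_SXF.BLK
import Pool.Agent.Helper65_SXF.GRE
import Pool.Agent.Helper65_SXF.DEG
import Pool.Agent.Helper40_SXF.CNT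
import Pool.Agent.Helper80_SXF.CIA
import Pool.Agent.Helper72_SXF.DET
import Pool.Agent.Helper68_SXF.POT
import Pool.Agent.Helper68_SXF.VAL
import Pool.Agent.Helper99_SXF.FML

set_option autoImplicit false

/-! All rows together. -/

namespace Pool.Agent.SXF.H96

open Pool.Agent.SXF

theorem hStp : StpStmt := H28.stp (H23.kve (H34.inj H66.vdm))

theorem hHit : HitStmt := hit (H82.blk hStp) H65.gre H34.cut

theorem hTst : TstStmt := tst H34.iht siz

theorem hCir : CirStmt := H66.cir H40.cnt H80.cia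

theorem hFml : FmlStmt :=
  H99.fml hHit hCir H34.iht siz (H65.deg H68.pot) H68.val

theorem hDet : DetStmt := H72.det

end Pool.Agent.SXF.H96
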