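import Mathlib
import Pool.Agent.SXF.Stmts2
import Pool.Agent.Helper96_SXF.HIT

set_option autoImplicit false

/-! HI2. -/

namespace Pool.Agent.SXF.H96

open MvPolynomial Pool.Agent.Helper78_ACIT Pool.Agent.WBX Pool.Agent.SXF

/-- The number of `i < n` with `k i < r`. -/
def cutAt (n : ℕ) (k : ℕ → ℕ) (r : ℕ) : ℕ := ((Finset.range n).filter fun i => k i < r).card

theorem cutAt_le (n : ℕ) (k : ℕ → ℕ) (r : ℕ) : cutAt n k r ≤ n :=
  (Finset.card_filter_le _ _).trans (by simp)

theorem cutAt_le_iff (n : ℕ) (k : ℕ → ℕ) (hk : Monotone k) (r i : ℕ) (hi : i < n) :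
    cutAt n k r ≤ i ↔ r ≤ k i := by
  constructor
  · intro h
    by_contra hlt
    push Not at hlt
    have hsub : Finset.range (i + 1) ⊆ (Finset.range n).filter fun i => k i < r := by
      intro a ha
      rw [Finset.mem_range] at ha
      rw [Finset.mem_filter, Finset.mem_range]
      exact ⟨by omega, (hk (by omega)).trans_lt hlt⟩
    have := Finset.card_le_card hsub
    rw [Finset.card_range] at this
    unfold cutAt at h
    omega
  · intro h
    have hsub : ((Finset.range n).filter fun i => k i < r) ⊆ Finset.range i := by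
      intro a ha
      rw [Finset.mem_filter, Finset.mem_range] at ha
      rw [Finset.mem_range]
      by_contra hcon
      push Not at hcon
      have := hk hcon
      omega
    have := Finset.card_le_card hsub
    rw [Finset.card_range] at this
    exact this

theorem sum_step (hSTE : SteStmt) {E : Type} [Field E] [CharZero E] (n R : ℕ) (k : ℕ → ℕ)
    (hk : Monotone k) (y : ℕ → E) (i : ℕ) (hi : i < n) (hR : k i < R) :
    ∑ r : Fin R, ((y r - if (r : ℕ) = 0 then 0 else y ((r : ℕ) - 1)) /
      ∏ l ∈ (Finset.range (n + 1)).erase (cutAt n k r), ((cutAt n k r : E) - (l : E))) *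
      step n i (cutAt n k r : E) = y (k i) := by
  have h1 : ∀ r : Fin R, ((y r - if (r : ℕ) = 0 then 0 else y ((r : ℕ) - 1)) /
      ∏ l ∈ (Finset.range (n + 1)).erase (cutAt n k r), ((cutAt n k r : E) - (l : E))) *
      step n i (cutAt n k r : E) =
      if (r : ℕ) ≤ k i then (y r - if (r : ℕ) = 0 then 0 else y ((r : ℕ) - 1)) else 0 := by
    intro r
    obtain ⟨h2, h3⟩ := hSTE E n (cutAt n k r) (cutAt_le n k r)
    rw [h3 i hi.le]
    simp only [cutAt_le_iff n k hk r i hi]
    by_cases hr : (r : ℕ) ≤ k i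
    · rw [if_pos hr, if_pos hr]
      exact div_mul_cancel₀ _ h2
    · rw [if_neg hr, if_neg hr, mul_zero]
  simp only [h1]
  rw [Fin.sum_univ_eq_sum_range (fun r => if r ≤ k i then
    (y r - if r = 0 then 0 else y (r - 1)) else 0) R]
  have h4 : ∀ N, k i < N → ∑ r ∈ Finset.range N, (if r ≤ k i then
      (y r - if r = 0 then 0 else y (r - 1)) else 0) = y (k i) := by
    intro N hN
    have h5 : ∑ r ∈ Finset.range N, (if r ≤ k i then
        (y r - if r = 0 then 0 else y (r - 1)) else 0) =
        ∑ r ∈ Finset.range (k i + 1), (y r - if r = 0 then 0 else y (r - 1)) := by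
      rw [← Finset.sum_filter]
      refine Finset.sum_congr ?_ fun _ _ => rfl
      ext a
      rw [Finset.mem_filter, Finset.mem_range, Finset.mem_range]
      omega
    rw [h5]
    have h6 : ∀ M, ∑ r ∈ Finset.range (M + 1), (y r - if r = 0 then 0 else y (r - 1)) = y M := by
      intro M
      induction M with
      | zero => simp
      | succ M ih =>
        rw [Finset.sum_range_succ, ih]
        simp
    exact h6 _
  exact h4 R hR

theorem hi2 (hBLK : BlkStmt) (hGRE : GreStmt) (hSTE : SteStmt) : Hi2Stmt := by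
  intro E _ _ τ n s m R T hτ hT hT1 hK F hF hF0
  obtain ⟨hvars, w, hw, hw1, hB⟩ := hF
  obtain ⟨k, hkm, hk, hkr⟩ := hGRE n s m w hw
  have hkR : ∀ i, k i < R := fun i => (hk i).trans_lt hK
  have hinf : Infinite E := inferInstance
  have hall : ∀ r, ∃ y z e : ℕ → E, aeval (mixed (T := T) k r y z e) F ≠ 0 := by
    intro r
    induction r with
    | zero =>
      obtain ⟨e, he⟩ := exists_eval_ne F hF0
      refine ⟨fun _ => 0, fun _ => 0, e, ?_⟩
      have h1 : aeval (mixed (T := T) k 0 (fun _ => (0 : E)) (fun _ => 0) e) F =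
          C (eval e F) := by
        have h2 : (aeval (mixed (T := T) k 0 (fun _ => (0 : E)) (fun _ => 0) e)).toRingHom =
            (C : E →+* MvPolynomial (Fin T) E).comp (eval e) := by
          apply MvPolynomial.ringHom_ext
          · intro a
            simp
          · intro i
            simp [mixed]
        exact RingHom.congr_fun h2 F
      rw [h1]
      intro h
      exact he (C_eq_zero.1 h)
    | succ r ih =>
      obtain ⟨y, z, e, h⟩ := ih
      exact hBLK E τ n m T F w k r hτ hT hT1 hvars hw1 hB (hkr r) y z e h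
  obtain ⟨y, z, e, h⟩ := hall R
  obtain ⟨ξ, hξ⟩ := exists_eval_ne _ h
  have h1 : eval ξ (aeval (mixed (T := T) k R y z e) F) =
      eval (fun i => z (k i) + ∑ j : Fin T, ξ j * (((i : E) + 1) * y (k i)) ^ (j : ℕ)) F := by
    have h2 : (eval ξ).comp (aeval (mixed (T := T) k R y z e)).toRingHom =
        eval (fun i => z (k i) + ∑ j : Fin T, ξ j * (((i : E) + 1) * y (k i)) ^ (j : ℕ)) := by
      apply MvPolynomial.ringHom_ext
      · intro a
        simp
      · intro i
        have h3 : k i < R := hkR i
        simp only [AlgHom.toRingHom_eq_coe, RingHom.coe_comp, RingHom.coe_coe, Function.comp_apply,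
          aeval_X, eval_X, mixed, h3, if_true, map_add, eval_C, map_sum, map_mul, map_pow]
    exact RingHom.congr_fun h2 F
  rw [h1] at hξ
  refine ⟨fun r => (cutAt n k r : E), fun r => (y r - if (r : ℕ) = 0 then 0 else y ((r : ℕ) - 1)) /
      ∏ l ∈ (Finset.range (n + 1)).erase (cutAt n k r), ((cutAt n k r : E) - (l : E)),
    fun r => (z r - if (r : ℕ) = 0 then 0 else z ((r : ℕ) - 1)) /
      ∏ l ∈ (Finset.range (n + 1)).erase (cutAt n k r), ((cutAt n k r : E) - (l : E)), ξ, ?_⟩
  intro h0
  apply hξ
  rw [← h0]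
  refine eval₂Hom_congr' rfl ?_ rfl
  intro i hi _
  have hin : i < n := Finset.mem_range.1 (hvars hi)
  unfold gen
  rw [if_pos hin, sum_step hSTE n R k hkm y i hin (hkR i), sum_step hSTE n R k hkm z i hin (hkR i)]

end Pool.Agent.SXF.H96
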