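import Mathlib
import Pool.Agent.SXF.Stmts2
import Pool.Agent.Helper96_SXF.HIT

set_option autoImplicit false

/-! SMA and PRD. -/

namespace Pool.Agent.SXF.H96

open MvPolynomial Pool.Agent.Helper78_ACIT Pool.Agent.WBX Pool.Agent.SXF

theorem narrow_mono {E : Type} [Field E] {τ : ℕ → ℕ} {n s s' : ℕ} (h : s ≤ s')
    {F : MvPolynomial ℕ E} (hF : IsNarrow E τ n s F) : IsNarrow E τ n s' F := by
  obtain ⟨h1, w, hw, h2⟩ := hF
  exact ⟨h1, w, hw.trans h, h2⟩

theorem sma (hHI2 : Hi2Stmt) (hCIQ : CiqStmt) (hDET : DetStmt) : SmaStmt := by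
  intro E _ _ n R T hT1 F hF hF0
  obtain ⟨s, m, hR, h | h⟩ := hF
  · obtain ⟨e, G, q, J, P, hG, hload, hT, rfl⟩ := h
    refine hHI2 E (fun m => 4 * (m + extra G) + 2 * q) n s m R T ?_ ?_ hT1 hR _
      (narrow_mono hload (hCIQ E n e G q J P hG)) hF0
    · intro a b hab
      simp only
      omega
    · omega
  · obtain ⟨N, A, ι, u, v, hι, hT, rfl⟩ := h
    refine hHI2 E (fun m => m ^ 2 + 1) n s m R T ?_ ?_ hT1 hR _
      (hDET E n N s A ι u v hι) hF0
    · intro a b hab
      simp only
      exact Nat.add_le_add_right (Nat.pow_le_pow_left hab 2) 1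
    · omega

theorem step_map {A B : Type} [CommRing A] [CommRing B] (φ : A →+* B) (n i : ℕ) (c : A) :
    φ (step n i c) = step n i (φ c) := by
  unfold step
  simp only [map_sum, map_prod, map_sub, map_natCast]

theorem gen_map {A B : Type} [CommRing A] [CommRing B] (φ : A →+* B) {R T : ℕ} (n : ℕ)
    (c y z : Fin R → A) (ξ : Fin T → A) (i : ℕ) :
    φ (gen n c y z ξ i) =
      gen n (fun r => φ (c r)) (fun r => φ (y r)) (fun r => φ (z r)) (fun j => φ (ξ j)) i := by
  unfold gen
  split_ifs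
  · simp only [map_add, map_sum, map_mul, map_pow, map_natCast, map_one, step_map]
  · exact map_zero φ

/-- The generator with variables as seeds. -/
noncomputable def genX (E : Type) [Field E] (n R T : ℕ) :
    ℕ → MvPolynomial (Fin R ⊕ Fin R ⊕ Fin R ⊕ Fin T) E :=
  gen n (fun r => X (Sum.inl r)) (fun r => X (Sum.inr (Sum.inl r)))
    (fun r => X (Sum.inr (Sum.inr (Sum.inl r)))) (fun j => X (Sum.inr (Sum.inr (Sum.inr j))))

theorem eval_genX (E : Type) [Field E] (n R T : ℕ) (x : Fin R ⊕ Fin R ⊕ Fin R ⊕ Fin T → E)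
    (F : MvPolynomial ℕ E) :
    eval x (aeval (genX E n R T) F) =
      eval (gen n (fun r => x (Sum.inl r)) (fun r => x (Sum.inr (Sum.inl r)))
        (fun r => x (Sum.inr (Sum.inr (Sum.inl r)))) (fun j => x (Sum.inr (Sum.inr (Sum.inr j))))) F := by
  have h : (eval x).comp (aeval (genX E n R T)).toRingHom =
      eval (gen n (fun r => x (Sum.inl r)) (fun r => x (Sum.inr (Sum.inl r)))
        (fun r => x (Sum.inr (Sum.inr (Sum.inl r))))
        (fun j => x (Sum.inr (Sum.inr (Sum.inr j))))) := by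
    apply MvPolynomial.ringHom_ext
    · intro a
      simp
    · intro i
      simp only [AlgHom.toRingHom_eq_coe, RingHom.coe_comp, RingHom.coe_coe, Function.comp_apply,
        aeval_X, eval_X]
      unfold genX
      rw [gen_map (eval x)]
      simp only [eval_X]
  exact RingHom.congr_fun h F

theorem prd : PrdStmt := by
  intro E _ _ n R T P hP S hS hS0
  have hinf : Infinite E := inferInstance
  have hne : ∀ F ∈ S, aeval (genX E n R T) F ≠ 0 := by
    intro F hF
    have hF0 : F ≠ 0 := by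
      rintro rfl
      exact hS0 (List.prod_eq_zero hF)
    obtain ⟨c, y, z, ξ, h⟩ := hP F (hS F hF) hF0
    intro h0
    apply h
    have h1 := eval_genX E n R T (Sum.elim c (Sum.elim y (Sum.elim z ξ))) F
    rw [h0, map_zero] at h1
    simp only [Sum.elim_inl, Sum.elim_inr] at h1
    exact h1.symm
  have hprod : aeval (genX E n R T) S.prod ≠ 0 := by
    rw [map_list_prod]
    intro h0
    rw [List.prod_eq_zero_iff, List.mem_map] at h0
    obtain ⟨F, hF, hF0⟩ := h0
    exact hne F hF hF0
  obtain ⟨x, hx⟩ := exists_eval_ne _ hprod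
  rw [eval_genX] at hx
  exact ⟨_, _, _, _, hx⟩

end Pool.Agent.SXF.H96
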