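import Mathlib
import Pool.Agent.SXF.Stmts2
import Pool.Agent.Helper96_SXF.SMA
import Pool.Agent.Helper12_UO.Transfer

set_option autoImplicit false

/-! IH2. -/

namespace Pool.Agent.SXF.H96

open MvPolynomial Pool.Agent.Helper78_ACIT Pool.Agent.WBX Pool.Agent.SXF

/-- The seeds. -/
abbrev Sd (R T : ℕ) : Type := Fin R ⊕ Fin R ⊕ Fin R ⊕ Fin T

theorem degreeOf_sub_natCast {σ : Type} [DecidableEq σ] (s v : σ) (k : ℕ) :
    degreeOf s ((X v : MvPolynomial σ ℤ) - (k : MvPolynomial σ ℤ)) ≤ if s = v then 1 else 0 := by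
  have h : (k : MvPolynomial σ ℤ) = C (k : ℤ) := by simp
  rw [h]
  refine (degreeOf_sub_le _ _ _).trans ?_
  rw [degreeOf_C, degreeOf_X, max_eq_left (Nat.zero_le _)]

theorem degreeOf_step {σ : Type} [DecidableEq σ] (s v : σ) (n i : ℕ) (hi : i < n) :
    degreeOf s (step n i (X v : MvPolynomial σ ℤ)) ≤ if s = v then n else 0 := by
  unfold step
  refine (degreeOf_sum_le _ _ _).trans (Finset.sup_le fun l hl => ?_)
  refine (degreeOf_prod_le _ _ _).trans ?_
  refine (Finset.sum_le_sum fun k _ => degreeOf_sub_natCast s v k).trans ?_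
  rw [Finset.sum_const, Finset.card_erase_of_mem (by
    rw [Finset.mem_range] at hl ⊢
    omega), Finset.card_range, Nat.add_sub_cancel, smul_eq_mul]
  split_ifs <;> simp

theorem degreeOf_lin {R T : ℕ} (s : Sd R T) (n i : ℕ) (hi : i < n) (f : Fin R → Sd R T)
    (hf : ∀ r r', f r ≠ Sum.inl r') (hf' : ∀ r j, f r ≠ Sum.inr (Sum.inr (Sum.inr j))) :
    degreeOf s (∑ r, X (f r) * step n i (X (Sum.inl r) : MvPolynomial (Sd R T) ℤ)) ≤ n ∧
    ∀ j, s = Sum.inr (Sum.inr (Sum.inr j)) →
      degreeOf s (∑ r, X (f r) * step n i (X (Sum.inl r) : MvPolynomial (Sd R T) ℤ)) = 0 := by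
  classical
  have h1 : ∀ r, degreeOf s (X (f r) * step n i (X (Sum.inl r) : MvPolynomial (Sd R T) ℤ)) ≤
      (if s = f r then 1 else 0) + if s = Sum.inl r then n else 0 := by
    intro r
    refine (degreeOf_mul_le _ _ _).trans (Nat.add_le_add ?_ (degreeOf_step s _ n i hi))
    rw [degreeOf_X]
  constructor
  · refine (degreeOf_sum_le _ _ _).trans (Finset.sup_le fun r _ => (h1 r).trans ?_)
    by_cases h2 : s = f r
    · have h3 : s ≠ Sum.inl r := by
        rw [h2]
        exact hf r r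
      rw [if_pos h2, if_neg h3]
      omega
    · rw [if_neg h2]
      split_ifs <;> omega
  · intro j hj
    refine Nat.le_zero.1 ((degreeOf_sum_le _ _ _).trans (Finset.sup_le fun r _ => (h1 r).trans ?_))
    have h2 : s ≠ f r := by
      rw [hj]
      exact fun h => hf' r j h.symm
    have h3 : s ≠ Sum.inl r := by
      rw [hj]
      simp
    rw [if_neg h2, if_neg h3]

theorem degreeOf_natCast_add_one' {σ : Type} (s : σ) (i : ℕ) :
    degreeOf s ((i : MvPolynomial σ ℤ) + 1) = 0 := by
  have h : (i : MvPolynomial σ ℤ) + 1 = C ((i : ℤ) + 1) := by simp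
  rw [h, degreeOf_C]

theorem degreeOf_gen {R T : ℕ} (hT : 1 ≤ T) (n i : ℕ) (s : Sd R T) :
    degreeOf s (gen n (fun r => (X (Sum.inl r) : MvPolynomial (Sd R T) ℤ))
      (fun r => X (Sum.inr (Sum.inl r))) (fun r => X (Sum.inr (Sum.inr (Sum.inl r))))
      (fun j => X (Sum.inr (Sum.inr (Sum.inr j)))) i) ≤ n * T := by
  classical
  unfold gen
  beta_reduce
  split_ifs with hi
  · have hZ := degreeOf_lin s n i hi (fun r => Sum.inr (Sum.inr (Sum.inl r))) (by simp) (by simp)
    have hY := degreeOf_lin s n i hi (fun r => Sum.inr (Sum.inl r)) (by simp) (by simp)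
    have hnT : n ≤ n * T := Nat.le_mul_of_pos_right _ (by omega)
    refine (degreeOf_add_le _ _ _).trans (max_le (hZ.1.trans hnT) ?_)
    refine (degreeOf_sum_le _ _ _).trans (Finset.sup_le fun j _ => ?_)
    refine (degreeOf_mul_le _ _ _).trans ?_
    have h1 : degreeOf s ((((i : MvPolynomial (Sd R T) ℤ) + 1) * ∑ r, X (Sum.inr (Sum.inl r)) *
        step n i (X (Sum.inl r) : MvPolynomial (Sd R T) ℤ)) ^ (j : ℕ)) ≤
        (j : ℕ) * degreeOf s (∑ r, X (Sum.inr (Sum.inl r)) *
        step n i (X (Sum.inl r) : MvPolynomial (Sd R T) ℤ)) := by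
      refine (degreeOf_pow_le _ _ _).trans (Nat.mul_le_mul_left _ ?_)
      refine (degreeOf_mul_le _ _ _).trans ?_
      rw [degreeOf_natCast_add_one', zero_add]
    rw [degreeOf_X]
    have hj := j.2
    by_cases h2 : s = Sum.inr (Sum.inr (Sum.inr j))
    · rw [hY.2 j h2, Nat.mul_zero] at h1
      rw [if_pos h2]
      have : 1 ≤ n * T := Nat.mul_pos (by omega) (by omega)
      omega
    · rw [if_neg h2, zero_add]
      refine h1.trans ((Nat.mul_le_mul hj.le hY.1).trans ?_)
      rw [mul_comm]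
  · rw [degreeOf_zero]
    exact Nat.zero_le _

theorem ih2 : Ih2Stmt := by
  classical
  intro E _ _ n D R T P hD hT Q h1 hdvd
  obtain ⟨c0, y0, z0, ξ0, h1⟩ := h1
  obtain ⟨g, hg⟩ : ∃ g, g = gen n (fun r => (X (Sum.inl r) : MvPolynomial (Sd R T) ℤ))
      (fun r => X (Sum.inr (Sum.inl r))) (fun r => X (Sum.inr (Sum.inr (Sum.inl r))))
      (fun j => X (Sum.inr (Sum.inr (Sum.inr j)))) := ⟨_, rfl⟩
  obtain ⟨H, hH⟩ : ∃ H : MvPolynomial (Sd R T) ℤ, H = aeval g P := ⟨_, rfl⟩
  have heval : ∀ x : Sd R T → ℤ, eval x H =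
      eval (gen n (fun r => x (Sum.inl r)) (fun r => x (Sum.inr (Sum.inl r)))
        (fun r => x (Sum.inr (Sum.inr (Sum.inl r))))
        (fun j => x (Sum.inr (Sum.inr (Sum.inr j))))) P := by
    intro x
    rw [hH]
    have h3 : (eval x).comp (aeval (R := ℤ) g).toRingHom =
        eval (gen n (fun r => x (Sum.inl r)) (fun r => x (Sum.inr (Sum.inl r)))
          (fun r => x (Sum.inr (Sum.inr (Sum.inl r))))
          (fun j => x (Sum.inr (Sum.inr (Sum.inr j))))) := by
      apply MvPolynomial.ringHom_ext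
      · intro a
        simp
      · intro i
        simp only [AlgHom.toRingHom_eq_coe, RingHom.coe_comp, RingHom.coe_coe,
          Function.comp_apply, aeval_X, eval_X]
        rw [hg, gen_map (eval x)]
        simp only [eval_X]
    exact RingHom.congr_fun h3 P
  have hHne : H ≠ 0 := by
    intro hH0
    apply h1
    obtain ⟨g', hg'⟩ := hdvd
    rw [hg', map_mul]
    have h3 : (eval (gen n c0 y0 z0 ξ0)).comp (map (Int.castRingHom E)) =
        (eval₂Hom (Int.castRingHom E) (Sum.elim c0 (Sum.elim y0 (Sum.elim z0 ξ0)))).comp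
          (aeval (R := ℤ) g).toRingHom := by
      apply MvPolynomial.ringHom_ext
      · intro a
        simp
      · intro i
        simp only [AlgHom.toRingHom_eq_coe, RingHom.coe_comp, RingHom.coe_coe,
          Function.comp_apply, aeval_X, map_X, eval_X]
        rw [hg, gen_map (eval₂Hom (Int.castRingHom E)
          (Sum.elim c0 (Sum.elim y0 (Sum.elim z0 ξ0))))]
        simp only [coe_eval₂Hom, eval₂_X, Sum.elim_inl, Sum.elim_inr]
    have h4 := RingHom.congr_fun h3 P
    simp only [AlgHom.toRingHom_eq_coe, RingHom.coe_comp, RingHom.coe_coe,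
      Function.comp_apply] at h4
    rw [h4, ← hH, hH0, map_zero, zero_mul]
  by_contra hcon
  push Not at hcon
  apply hHne
  apply eq_zero_of_eval_zero_at_prod_finset H
    (fun _ => (Finset.range (D * n * T + 1)).image (fun a : ℕ => (a : ℤ)))
  · intro i
    rw [Finset.card_image_of_injective _ Nat.cast_injective, Finset.card_range, hH]
    refine Nat.lt_succ_of_le ?_
    have h5 : D * n * T = n * T * D := by ring
    rw [h5, hg]
    exact Pool.Agent.UO.degreeOf_aeval_le _ P (n * T) D i (fun j => degreeOf_gen hT n j i) hD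
  · intro x hx
    have hx' : ∀ i, ∃ a : ℕ, a ≤ D * n * T ∧ (a : ℤ) = x i := by
      intro i
      obtain ⟨a, ha, ha'⟩ := Finset.mem_image.mp (hx i)
      exact ⟨a, Nat.lt_succ_iff.mp (Finset.mem_range.mp ha), ha'⟩
    choose a ha ha' using hx'
    rw [heval]
    have := hcon (fun r => a (Sum.inl r)) (fun r => a (Sum.inr (Sum.inl r)))
      (fun r => a (Sum.inr (Sum.inr (Sum.inl r)))) (fun j => a (Sum.inr (Sum.inr (Sum.inr j))))
      (fun r => ha _) (fun r => ha _) (fun r => ha _) (fun j => ha _)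
    simpa only [ha'] using this

end Pool.Agent.SXF.H96
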