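import Pool.Agent.Helper96_SXF.ALL
import Pool.Agent.Helper96_SXF.HI2
import Pool.Agent.Helper96_SXF.SMA
import Pool.Agent.Helper96_SXF.IH2
import Pool.Agent.Helper66_SXF.STE
import Pool.Agent.Helper66_SXF.CIQ
import Pool.Agent.Helper54_SXF.SI2
import Pool.Agent.Helper54_SXF.TS2
import Pool.Agent.Helper99_SXF.FM2

set_option autoImplicit false

/-! All rows of the second wave together. -/

namespace Pool.Agent.SXF.H96

open Pool.Agent.SXF

theorem hSma : SmaStmt :=
  sma (hi2 (H82.blk hStp) H65.gre H66.ste) (H66.ciq H40.cnt) H72.det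

theorem hTs2 : Ts2Stmt := H54.ts2 ih2 H54.si2

theorem hFm2 : Fm2Stmt :=
  H99.fm2 hSma ih2 H54.si2 (H65.deg H68.pot) H68.val

end Pool.Agent.SXF.H96
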