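import Mathlib
import Pool.Agent.SXF.Stmts

set_option autoImplicit false

/-! The final theorem from the statements of the rows. -/

namespace Pool.Agent.SXF.H96

open MvPolynomial Pool.Agent.Helper78_ACIT Pool.Agent.WBX Pool.Agent.SXF

theorem fin (hHIT : HitStmt) (hTST : TstStmt) (hCIR : CirStmt) (hDET : DetStmt) (hFML : FmlStmt) :
    (∀ (E : Type) [Field E] [CharZero E] (τ : ℕ → ℕ) (n s m K T : ℕ), Monotone τ → τ m + m ≤ T →
      1 ≤ T → 2 * (s / (m + 1)) ≤ K →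
      (∀ F : MvPolynomial ℕ E, IsNarrow E τ n s F → F ≠ 0 →
        ∃ c : Fin K → Fin (n + 1), ∃ (ξ : Fin T → E) (y z : Fin (K + 1) → E),
          eval (point n (fun r => (c r : ℕ)) ξ y z) F ≠ 0) ∧
      ∀ (D b : ℕ) (G : List Gate), WellFormed G →
        (poly G = 0 ∨ ((poly G).totalDegree ≤ D ∧ Pool.Agent.UO.length (poly G) ≤ 2 ^ b ∧
          ∃ F : MvPolynomial ℕ E, IsNarrow E τ n s F ∧ F ≠ 0 ∧
            map (Int.castRingHom E) (poly G) ∣ F)) →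
        (G ∈ ACIT ↔ ∀ p, p.Prime → p ≤ 64 * (b + D * ((T + 2) * (n * D * T + T + 2)) + 1) ^ 2 →
          ∀ (c : Fin K → Fin (n + 1)) (ξ : Fin T → Fin (D * T + 1))
            (y z : Fin (K + 1) → Fin (D * T + 1)), testValue n p (D * T + 1) K T c ξ y z G = 0)) ∧
    (∀ (E : Type) [Field E] (n : ℕ) (e : ℕ → E) (G : List Gate), WellFormed G →
      IsNarrow E (fun m => 4 * (m + extra G) + 2) n (∑ v ∈ Finset.range n, load G v) (polyC n e G)) ∧
    (∀ (E : Type) [Field E] (n N s : ℕ) (A : Matrix (Fin N) (Fin N) E) (ι : Fin s → ℕ)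
      (u v : Fin s → Fin N → E), (∀ l, ι l < n) →
      IsNarrow E (fun m => m ^ 2 + 1) n s (pencil A ι u v).det) ∧
    ∀ (n r : ℕ) (G : List Gate), WellFormed G → extra G = 0 → (∀ v, Gate.var v ∈ G → v < n) →
      1 ≤ r → ∑ v ∈ Finset.range n, load G v ≤ r ^ 2 →
      (G ∈ ACIT ↔ ∀ (c : Fin (2 * r - 2) → Fin (n + 1))
        (ξ : Fin (5 * r + 2) → Fin (r ^ 2 * (5 * r + 2) + 1))
        (y z : Fin (2 * r - 2 + 1) → Fin (r ^ 2 * (5 * r + 2) + 1)),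
        out (point n (fun s => (c s : ℕ)) (fun j => ((ξ j : ℕ) : ℤ)) (fun B => ((y B : ℕ) : ℤ))
          (fun B => ((z B : ℕ) : ℤ))) G = 0) ∧
      ∀ (c : Fin (2 * r - 2) → Fin (n + 1)) (ξ : Fin (5 * r + 2) → Fin (r ^ 2 * (5 * r + 2) + 1))
        (y z : Fin (2 * r - 2 + 1) → Fin (r ^ 2 * (5 * r + 2) + 1)),
        ∀ a ∈ values (point n (fun s => (c s : ℕ)) (fun j => ((ξ j : ℕ) : ℤ)) (fun B => ((y B : ℕ) : ℤ))
          (fun B => ((z B : ℕ) : ℤ))) G,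
          a.natAbs ≤ 2 ^ (2 * G.length * ((5 * r + 4) * (n * r ^ 2 * (5 * r + 2) + 5 * r + 4) + 1)) := by
  refine ⟨?_, fun E _ n e G hG => hCIR E n e G hG, fun E _ n N s A ι u v h => hDET E n N s A ι u v h,
    fun n r G h1 h2 h3 h4 h5 => hFML n r G h1 h2 h3 h4 h5⟩
  intro E _ _ τ n s m K T hτ hT hT1 hK
  have h1 : ∀ F : MvPolynomial ℕ E, IsNarrow E τ n s F → F ≠ 0 →
      ∃ c : Fin K → Fin (n + 1), ∃ (ξ : Fin T → E) (y z : Fin (K + 1) → E),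
        eval (point n (fun r => (c r : ℕ)) ξ y z) F ≠ 0 :=
    fun F hF hF0 => hHIT E τ n s m K T hτ hT hT1 hK F hF hF0
  exact ⟨h1, fun D b G hG h => hTST E n K T hT1 (IsNarrow E τ n s) h1 D b G hG h⟩

end Pool.Agent.SXF.H96
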